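import Pool.Agent.LibH11.Renorm.Glue

/-!
# A characterisation of the Asplund spaces with the renorming

helper11, problem MP_2b9b38_an.
-/

set_option autoImplicit false

open Set Cardinal

universe u

namespace Pool.Agent.Results.MP_2b9b38_an.DominatedSystems

/-- `κ` is the density character of `X`. -/
def HasDensity (X : Type u) [NormedAddCommGroup X] (κ : Cardinal.{u}) : Prop :=
  (∃ D : Set X, Dense D ∧ #D = κ) ∧ ∀ D : Set X, Dense D → κ ≤ #D

/-- `X` has a bounded uniformly dominated system with at least `ν` elements: pairs `(x, f)` in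
`X × X*` with norms at most `C` and `f x = 1`, such that `|g x| ≤ 1 - δ` whenever `(x, f)` and
`(y, g)` are different members; `C` and `δ > 0` do not depend on the members. -/
def HasDominatedSystem (X : Type u) [NormedAddCommGroup X] [NormedSpace ℝ X]
    (ν : Cardinal.{u}) : Prop :=
  ∃ (S : Set (X × (X →L[ℝ] ℝ))) (C δ : ℝ), ν ≤ #S ∧ 0 < δ ∧
    (∀ p ∈ S, ‖p.1‖ ≤ C ∧ ‖p.2‖ ≤ C ∧ p.2 p.1 = 1) ∧
    (∀ p ∈ S, ∀ q ∈ S, p ≠ q → |q.2 p.1| ≤ 1 - δ)

/-- A nonseparable Asplund space has an equivalent norm for which the dual has no proper closed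
1-norming subspace, if and only if it has bounded uniformly dominated systems of every regular
uncountable size up to its density. -/
theorem result (X : Type u) [NormedAddCommGroup X] [NormedSpace ℝ X] [CompleteSpace X]
    (hA : ∀ Y : Submodule ℝ X, TopologicalSpace.SeparableSpace Y →
      TopologicalSpace.SeparableSpace (Y →L[ℝ] ℝ))
    (hns : ¬ TopologicalSpace.SeparableSpace X)
    (κ : Cardinal.{u}) (hκ : HasDensity X κ) :
    (∃ N : X → ℝ,
      (∀ x y : X, N (x + y) ≤ N x + N y) ∧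
      (∀ (r : ℝ) (x : X), N (r • x) = |r| * N x) ∧
      (∃ c C : ℝ, 0 < c ∧ 0 < C ∧ ∀ x : X, c * ‖x‖ ≤ N x ∧ N x ≤ C * ‖x‖) ∧
      ∀ Y : Submodule ℝ (X →L[ℝ] ℝ),
        IsClosed (Y : Set (X →L[ℝ] ℝ)) →
        (∀ x : X, ∀ ε : ℝ, 0 < ε →
          ∃ f ∈ Y, (∀ z : X, |f z| ≤ N z) ∧ N x - ε < f x) →
        Y = ⊤) ↔
    ∀ ν : Cardinal.{u}, ν.IsRegular → ℵ₀ < ν → ν ≤ κ → HasDominatedSystem X ν := by
  obtain ⟨⟨D, hD, hDκ⟩, hmin⟩ := hκ
  have hunc : ℵ₀ < κ := by
    by_contra hle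
    push Not at hle
    refine hns ⟨D, ?_, hD⟩
    rw [← le_aleph0_iff_set_countable, hDκ]
    exact hle
  constructor
  · rintro ⟨N, h1, h2, h3, h4⟩ ν hν hν0 hνκ
    exact LibH11.Renorm.hasSystem_of_norm hA (N := N) ⟨h1, h2, h3⟩ h4 hν0 hν
      fun D hD => hνκ.trans (hmin D hD)
  · intro h
    obtain ⟨N, ⟨h1, h2, h3⟩, h4⟩ :=
      LibH11.Renorm.exists_norm_of_hasSystem hA hunc hD hDκ h
    exact ⟨N, h1, h2, h3, h4⟩

end Pool.Agent.Results.MP_2b9b38_an.DominatedSystems
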