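import Pool.Agent.LibH11.Renorm.Biorth

/-!
# Asplund spaces with no small total set of functionals

helper11, problem MP_2b9b38_an.
-/

set_option autoImplicit false

open Set Cardinal

universe u

namespace Pool.Agent.Results.MP_2b9b38_an.LargeWeakStarDensity

/-- `κ` is the density character of `X`. -/
def HasDensity (X : Type u) [NormedAddCommGroup X] (κ : Cardinal.{u}) : Prop :=
  (∃ D : Set X, Dense D ∧ #D = κ) ∧ ∀ D : Set X, Dense D → κ ≤ #D

/-- A set of functionals is total if only the zero vector is killed by all of them. -/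
def IsTotal {X : Type u} [NormedAddCommGroup X] [NormedSpace ℝ X]
    (F : Set (X →L[ℝ] ℝ)) : Prop := ∀ x : X, (∀ f ∈ F, f x = 0) → x = 0

/-- Let `X` be a nonseparable Asplund space of density `κ`. If every total set of functionals
has at least `κ` elements, or if `κ` is a strong limit cardinal, then `X` has an equivalent
norm for which the dual has no proper closed 1-norming subspace. -/
theorem result (X : Type u) [NormedAddCommGroup X] [NormedSpace ℝ X] [CompleteSpace X]
    (hA : ∀ Y : Submodule ℝ X, TopologicalSpace.SeparableSpace Y →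
      TopologicalSpace.SeparableSpace (Y →L[ℝ] ℝ))
    (hns : ¬ TopologicalSpace.SeparableSpace X)
    (κ : Cardinal.{u}) (hκ : HasDensity X κ)
    (h : (∀ F : Set (X →L[ℝ] ℝ), IsTotal F → κ ≤ #F) ∨ κ.IsStrongLimit) :
    ∃ N : X → ℝ,
      (∀ x y : X, N (x + y) ≤ N x + N y) ∧
      (∀ (r : ℝ) (x : X), N (r • x) = |r| * N x) ∧
      (∃ c C : ℝ, 0 < c ∧ 0 < C ∧ ∀ x : X, c * ‖x‖ ≤ N x ∧ N x ≤ C * ‖x‖) ∧
      ∀ Y : Submodule ℝ (X →L[ℝ] ℝ),
        IsClosed (Y : Set (X →L[ℝ] ℝ)) →
        (∀ x : X, ∀ ε : ℝ, 0 < ε →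
          ∃ f ∈ Y, (∀ z : X, |f z| ≤ N z) ∧ N x - ε < f x) →
        Y = ⊤ := by
  obtain ⟨⟨D₀, hD₀, hD₀κ⟩, hmin⟩ := hκ
  have hunc : ℵ₀ < κ := by
    by_contra hle
    push Not at hle
    refine hns ⟨D₀, ?_, hD₀⟩
    rw [← le_aleph0_iff_set_countable, hD₀κ]
    exact hle
  have hinf : D₀.Infinite := by
    rw [← infinite_coe_iff, ← aleph0_le_mk_iff, hD₀κ]
    exact hunc.le
  have htot : ∀ F : Set (X →L[ℝ] ℝ), IsTotal F → κ ≤ #F := by
    rcases h with h | h
    · exact h
    · intro F hF
      by_contra hlt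
      push Not at hlt
      -- the evaluation map is injective
      have hinj : Function.Injective (fun (x : X) (f : F) => (f : X →L[ℝ] ℝ) x) := by
        intro x y hxy
        have : x - y = 0 := hF _ fun f hf => by
          have := congrFun hxy ⟨f, hf⟩
          simp only at this
          rw [map_sub, this, sub_self]
        exact sub_eq_zero.mp this
      have h1 : #X ≤ 2 ^ (ℵ₀ * #F) := by
        have h2 := Cardinal.mk_le_of_injective (β := F → ULift.{u} ℝ)
          (f := fun (x : X) (f : F) => ULift.up ((f : X →L[ℝ] ℝ) x)) (by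
            intro x y hxy
            apply hinj
            funext f
            exact ULift.up_injective (congrFun hxy f))
        refine h2.trans ?_
        rw [mk_pi, prod_const, lift_id, lift_id, mk_uLift, mk_real, lift_continuum,
          ← two_power_aleph0, ← power_mul]
      have h3 : ℵ₀ * #F < κ := mul_lt_of_lt hunc.le hunc hlt
      have h4 : κ ≤ #X := hD₀κ ▸ mk_set_le D₀
      exact absurd (h4.trans h1) (not_le.mpr (h.isStrongPrelimit h3))
  obtain ⟨S, hS1, hS2, D, hD, hDS⟩ := LibH11.Renorm.exists_biorthogonal (X := X)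
    (fun F hF => ⟨D₀, hD₀, hD₀κ ▸ htot F hF⟩) hns
  have hDinf : D.Infinite := by
    rw [← infinite_coe_iff, ← aleph0_le_mk_iff]
    exact hunc.le.trans (hmin D hD)
  obtain ⟨N, ⟨h1, h2, h3⟩, h4⟩ := LibH11.Renorm.exists_norm_of_system hA hD hDinf (ι := S) hDS
    (fun p => p.1.1) (fun p => p.1.2) 2 1 one_pos
    (fun p => by rw [(hS1 _ p.2).1]; norm_num) (fun p => (hS1 _ p.2).2.1)
    (fun p => (hS1 _ p.2).2.2) (fun p q hpq => by
      rw [hS2 _ q.2 _ p.2 (fun h => hpq (Subtype.ext h.symm))]
      simp)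
  exact ⟨N, h1, h2, h3, h4⟩

end Pool.Agent.Results.MP_2b9b38_an.LargeWeakStarDensity
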