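import Pool.Agent.Lib_helper44.Asp.CharDual

/-!
# Asplund spaces with large scattered compact sets of small characters

helper44, problem MP_2b9b38_an.
-/

set_option autoImplicit false

open Set Cardinal TopologicalSpace

universe u

namespace Pool.Agent.Results.MP_2b9b38_an.SmallCharacters

/-- Separable subspaces of `X` have separable duals. -/
def Asplund (X : Type u) [NormedAddCommGroup X] [NormedSpace ℝ X] : Prop :=
  ∀ Y : Submodule ℝ X, SeparableSpace Y → SeparableSpace (Y →L[ℝ] ℝ)

/-- `κ` is the density character of `X`. -/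
def HasDensity (X : Type u) [NormedAddCommGroup X] (κ : Cardinal.{u}) : Prop :=
  (∃ D : Set X, Dense D ∧ #D = κ) ∧ ∀ D : Set X, Dense D → κ ≤ #D

/-- `X` has an equivalent norm `N` such that the only norm-closed subspace of `X*` which is
1-norming for `N` is `X*`. -/
def HasRenorming (X : Type u) [NormedAddCommGroup X] [NormedSpace ℝ X] : Prop :=
  ∃ N : X → ℝ,
    (∀ x y : X, N (x + y) ≤ N x + N y) ∧
    (∀ (r : ℝ) (x : X), N (r • x) = |r| * N x) ∧
    (∃ c C : ℝ, 0 < c ∧ 0 < C ∧ ∀ x : X, c * ‖x‖ ≤ N x ∧ N x ≤ C * ‖x‖) ∧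
    ∀ Y : Submodule ℝ (X →L[ℝ] ℝ),
      IsClosed (Y : Set (X →L[ℝ] ℝ)) →
      (∀ x : X, ∀ ε : ℝ, 0 < ε →
        ∃ f ∈ Y, (∀ z : X, |f z| ≤ N z) ∧ N x - ε < f x) →
      Y = ⊤

/-- `x` is the intersection of fewer than `lam` open sets; in a compact Hausdorff space: `x` is
isolated or has character less than `lam`. -/
def SmallCharacter {K : Type u} [TopologicalSpace K] (lam : Cardinal.{u}) (x : K) : Prop :=
  ∃ B : Set (Set K), #B < lam ∧ (∀ U ∈ B, IsOpen U) ∧ ⋂₀ B = {x}

/-- `K ⊆ Y*` is weak-star compact, bounded, and every nonempty subset has a relatively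
weak-star isolated point. -/
structure CompactScattered {Y : Type u} [NormedAddCommGroup Y] [NormedSpace ℝ Y]
    (K : Set (WeakDual ℝ Y)) : Prop where
  compact : IsCompact K
  bounded : ∃ r : ℝ, ∀ f ∈ K, ‖WeakDual.toStrongDual f‖ ≤ r
  scattered : ∀ A ⊆ K, A.Nonempty → ∃ a ∈ A, ∃ U : Set (WeakDual ℝ Y), IsOpen U ∧ U ∩ A = {a}

/-- The points of `K` which are extreme points of its weak-star closed convex hull and
intersections of fewer than `lam` relatively weak-star open subsets of `K`. -/
def Good {Y : Type u} [NormedAddCommGroup Y] [NormedSpace ℝ Y] (lam : Cardinal.{u})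
    (K : Set (WeakDual ℝ Y)) : Set (WeakDual ℝ Y) :=
  {f | f ∈ extremePoints ℝ (closure (convexHull ℝ K)) ∧
    ∃ B : Set (Set (WeakDual ℝ Y)), #B < lam ∧ (∀ U ∈ B, IsOpen U) ∧ K ∩ ⋂₀ B = {f}}

/-- (1) An Asplund space of density `κ` has the renorming if the dual of a subspace contains a
weak-star compact scattered set `K` of cardinality at least `κ`, such that for some regular
cardinal `lam < |K|` fewer than `|K|` points of `K` are not good.  (2) In particular for `C(K)`:
it suffices that fewer than `|K|` points of `K` have character at least `lam`. -/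
theorem result :
    (∀ (X : Type u) [NormedAddCommGroup X] [NormedSpace ℝ X] [CompleteSpace X],
      Asplund X → ¬ SeparableSpace X → ∀ κ : Cardinal.{u}, HasDensity X κ →
      ∀ (Y : Submodule ℝ X) (K : Set (WeakDual ℝ Y)), CompactScattered K → κ ≤ #K →
      ∀ lam : Cardinal.{u}, lam.IsRegular → lam < #K → #(K \ Good lam K : Set _) < #K →
      HasRenorming X) ∧
    ∀ (K : Type u) [TopologicalSpace K] [CompactSpace K] [T2Space K], Asplund C(K, ℝ) →
      ∀ lam : Cardinal.{u}, lam.IsRegular → lam < #K →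
      #{x : K | ¬ SmallCharacter lam x} < #K → HasRenorming C(K, ℝ) := by
  constructor
  · intro X _ _ _ hA hns κ hκ Y K hK hκK lam hlam hlt hfew
    obtain ⟨⟨D, hD, hDκ⟩, -⟩ := hκ
    have hunc : ℵ₀ < κ := by
      by_contra hle
      push Not at hle
      refine hns ⟨D, ?_, hD⟩
      rw [← le_aleph0_iff_set_countable, hDκ]
      exact hle
    obtain ⟨r, hr⟩ := hK.bounded
    obtain ⟨N, ⟨h1, h2, h3⟩, h4⟩ := Lib_helper44.Asp.Char.exists_norm_of_dual hA hunc hD hDκ Y K
      hK.compact hr hK.scattered hκK hlam hlt hfew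
    exact ⟨N, h1, h2, h3, h4⟩
  · intro K _ _ _ hA lam hlam hlt hfew
    obtain ⟨N, ⟨h1, h2, h3⟩, h4⟩ := Lib_helper44.Asp.Char.exists_norm_of_few hA hlam hlt hfew
    exact ⟨N, h1, h2, h3, h4⟩

end Pool.Agent.Results.MP_2b9b38_an.SmallCharacters
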