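import Pool.Agent.Lib_helper44.Asp.Main

/-!
# Asplund spaces whose Szlenk index is smaller than the density

helper44, problem MP_2b9b38_an.
-/

set_option autoImplicit false

open Set Cardinal

universe u

namespace Pool.Agent.Results.MP_2b9b38_an.SzlenkBelowDensity

/-- `κ` is the density character of `X`. -/
def HasDensity (X : Type u) [NormedAddCommGroup X] (κ : Cardinal.{u}) : Prop :=
  (∃ D : Set X, Dense D ∧ #D = κ) ∧ ∀ D : Set X, Dense D → κ ≤ #D

/-- Fewer than `κ` pieces: there is a cardinal `μ < κ` such that, for every `ε > 0`, the extreme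
points of the dual unit ball are covered by at most `μ` sets `A` of functionals such that every
`f ∈ A` has a weak-star neighbourhood, given by finitely many vectors `s` and `δ > 0`, whose
intersection with `A` lies in the ball of radius `ε` around `f`. -/
def FewPieces (X : Type u) [NormedAddCommGroup X] [NormedSpace ℝ X] (κ : Cardinal.{u}) : Prop :=
  ∃ μ : Cardinal.{u}, μ < κ ∧ ∀ ε : ℝ, 0 < ε → ∃ 𝒜 : Set (Set (X →L[ℝ] ℝ)), #𝒜 ≤ μ ∧
    (∀ f ∈ extremePoints ℝ (Metric.closedBall (0 : X →L[ℝ] ℝ) 1), ∃ A ∈ 𝒜, f ∈ A) ∧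
    ∀ A ∈ 𝒜, ∀ f ∈ A, ∃ (s : Finset X) (δ : ℝ), 0 < δ ∧
      ∀ g ∈ A, (∀ y ∈ s, |g y - f y| < δ) → ‖g - f‖ ≤ ε

/-- The points of `C` all of whose relative weak-star neighbourhoods in `C` have diameter
larger than `ε`. -/
def szlenkDerivative {X : Type u} [NormedAddCommGroup X] [NormedSpace ℝ X] (ε : ℝ)
    (C : Set (X →L[ℝ] ℝ)) : Set (X →L[ℝ] ℝ) :=
  {f | f ∈ C ∧ ∀ (s : Finset X) (δ : ℝ), 0 < δ → ∃ g ∈ C, ∃ h ∈ C,
    (∀ y ∈ s, |g y - f y| < δ) ∧ (∀ y ∈ s, |h y - f y| < δ) ∧ ε < ‖g - h‖}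

/-- The transfinite Szlenk derivations of the dual unit ball `B`: the set of index `α` consists
of the `f ∈ B` lying in the derivative of the set of index `β`, for all `β < α`. So the sets of
index `0`, `α + 1` and `l` (limit) are `B`, the derivative of the set of index `α`, and the
intersection of the sets of index below `l`. -/
noncomputable def szlenkSet (X : Type u) [NormedAddCommGroup X] [NormedSpace ℝ X] (ε : ℝ)
    (α : Ordinal.{u}) : Set (X →L[ℝ] ℝ) :=
  {f | ‖f‖ ≤ 1 ∧ ∀ β : Ordinal.{u}, β < α → f ∈ szlenkDerivative ε (szlenkSet X ε β)}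
termination_by α

/-- The Szlenk index of `X` has cardinality less than `κ`: for some ordinal `α` of cardinality
less than `κ` all the sets of index `α` are empty, for every `ε > 0`. -/
def SzlenkIndexBelow (X : Type u) [NormedAddCommGroup X] [NormedSpace ℝ X]
    (κ : Cardinal.{u}) : Prop :=
  ∃ α : Ordinal.{u}, α.card < κ ∧ ∀ ε : ℝ, 0 < ε → szlenkSet X ε α = ∅

/-- Let `X` be a nonseparable Asplund space of density `κ`. If the extreme points of the dual
unit ball are covered by fewer than `κ` pieces which are locally small, for example if the Szlenk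
index of `X` has cardinality less than `κ`, then `X` has an equivalent norm for which the dual
has no proper closed 1-norming subspace. -/
theorem result (X : Type u) [NormedAddCommGroup X] [NormedSpace ℝ X] [CompleteSpace X]
    (hA : ∀ Y : Submodule ℝ X, TopologicalSpace.SeparableSpace Y →
      TopologicalSpace.SeparableSpace (Y →L[ℝ] ℝ))
    (hns : ¬ TopologicalSpace.SeparableSpace X)
    (κ : Cardinal.{u}) (hκ : HasDensity X κ)
    (h : FewPieces X κ ∨ SzlenkIndexBelow X κ) :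
    ∃ N : X → ℝ,
      (∀ x y : X, N (x + y) ≤ N x + N y) ∧
      (∀ (r : ℝ) (x : X), N (r • x) = |r| * N x) ∧
      (∃ c C : ℝ, 0 < c ∧ 0 < C ∧ ∀ x : X, c * ‖x‖ ≤ N x ∧ N x ≤ C * ‖x‖) ∧
      ∀ Y : Submodule ℝ (X →L[ℝ] ℝ),
        IsClosed (Y : Set (X →L[ℝ] ℝ)) →
        (∀ x : X, ∀ ε : ℝ, 0 < ε →
          ∃ f ∈ Y, (∀ z : X, |f z| ≤ N z) ∧ N x - ε < f x) →
        Y = ⊤ := by
  obtain ⟨⟨D, hD, hDκ⟩, hmin⟩ := hκ
  have hunc : ℵ₀ < κ := by
    by_contra hle
    push Not at hle
    refine hns ⟨D, ?_, hD⟩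
    rw [← le_aleph0_iff_set_countable, hDκ]
    exact hle
  have hcov : FewPieces X κ := by
    rcases h with h | ⟨α, hα, hempty⟩
    · exact h
    refine ⟨α.card, hα, fun ε hε => ?_⟩
    let L : α.ToType → Set (X →L[ℝ] ℝ) := fun b =>
      {f | f ∈ szlenkSet X ε (Ordinal.typein (α := α.ToType) (· < ·) b) ∧
        f ∉ szlenkDerivative ε (szlenkSet X ε (Ordinal.typein (α := α.ToType) (· < ·) b))}
    refine ⟨range L, ?_, ?_, ?_⟩
    · refine mk_range_le.trans ?_
      rw [mk_toType]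
    · intro f hf
      have hf1 : ‖f‖ ≤ 1 := by
        have := extremePoints_subset hf
        rwa [mem_closedBall_zero_iff] at this
      have hex : ∃ β : Ordinal.{u}, β < α ∧ f ∉ szlenkDerivative ε (szlenkSet X ε β) := by
        by_contra hno
        push Not at hno
        have hmem : f ∈ szlenkSet X ε α := by
          rw [szlenkSet]
          exact ⟨hf1, fun β hβ => hno β hβ⟩
        rw [hempty ε hε] at hmem
        exact hmem
      obtain ⟨β, ⟨hβα, hβ⟩, hβmin⟩ := WellFounded.has_min (Ordinal.lt_wf)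
        {β : Ordinal.{u} | β < α ∧ f ∉ szlenkDerivative ε (szlenkSet X ε β)} hex
      have hfβ : f ∈ szlenkSet X ε β := by
        rw [szlenkSet]
        refine ⟨hf1, fun γ hγ => ?_⟩
        by_contra hno
        exact hβmin γ ⟨hγ.trans hβα, hno⟩ hγ
      refine ⟨_, ⟨Ordinal.enum (α := α.ToType) (· < ·) ⟨β, by
        rw [Set.mem_Iio, Ordinal.type_toType]; exact hβα⟩, rfl⟩, ?_⟩
      show f ∈ szlenkSet X ε _ ∧ f ∉ szlenkDerivative ε (szlenkSet X ε _)
      rw [Ordinal.typein_enum]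
      exact ⟨hfβ, hβ⟩
    · rintro _ ⟨b, rfl⟩ f ⟨hf1, hf2⟩
      rw [szlenkDerivative] at hf2
      by_contra hno
      push Not at hno
      refine hf2 ⟨hf1, fun s δ hδ => ?_⟩
      obtain ⟨g, hg, hgs, hgn⟩ := hno s δ hδ
      exact ⟨g, hg.1, f, hf1, hgs, fun y _ => by rw [sub_self, abs_zero]; exact hδ, hgn⟩
  obtain ⟨μ, hμ, hμcov⟩ := hcov
  obtain ⟨N, ⟨h1, h2, h3⟩, h4⟩ :=
    Lib_helper44.Asp.exists_norm_of_covered hA hunc hD hDκ hmin hμ hμcov
  exact ⟨N, h1, h2, h3, h4⟩

end Pool.Agent.Results.MP_2b9b38_an.SzlenkBelowDensity
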